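import Pool.Agent.K.MP_0cf9ad_an.C0

/-!
A Stein space with an increasing sequence of Stein open subsets whose union is not Stein.
-/

set_option autoImplicit false

namespace Pool.Agent.Results.MP_0cf9ad_an.UnionNotStein

open Pool.Agent.P.MP_0cf9ad_an

theorem result : ∃ (N : ℕ) (X : Set (Fin N → ℂ)) (U : ℕ → Set (Fin N → ℂ)),
    IsAnalyticSet X ∧ IsStein X ∧ (∀ n, ∃ V : Set (Fin N → ℂ), IsOpen V ∧ U n = X ∩ V) ∧
      (∀ n, U n ⊆ U (n + 1)) ∧ (∀ n, IsStein (U n)) ∧ ¬ IsStein (⋃ n, U n) :=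
  ⟨6, XX, UU, XX_analytic, XX_stein, UU_open, fun n => UU_mono (Nat.le_succ n), UU_stein,
    union_not_stein⟩

end Pool.Agent.Results.MP_0cf9ad_an.UnionNotStein
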